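import Pool.Agent.Helper730_SG.Main

/-!
# MP_e5770a_an: spectral bound and growth bound of positive groups on ordered Hilbert spaces

Let `H` be a real Hilbert space ordered by a closed, normal, generating cone `K`, and let
`(T t)` be a strongly continuous group of positive operators on the complexification of `H`, with
generator `A`. Then the spectral bound of `A` equals the growth bound `ω₀` of the group, and
`ω₀` belongs to the spectrum of `A`.

Proof. Suppose `ω₀` is not in the spectrum. Then the resolvents `R(a)` stay bounded as `a ↓ ω₀`.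
For `x ∈ K` the real and imaginary parts of `R(a + ib) x = ∫ e^{-(a+ib)s} T_s x ds` lie between
`- R(a) x` and `R(a) x`, so by normality, by the generating property and by the uniform boundedness
principle `R(a + ib)` is bounded uniformly in `b` and in `a` near `ω₀`. By Parseval's identity on
`[0,1]` (the argument of Gearhart and Prüss) `(1 - e^{-(a+ib)} T_1)⁻¹` is then also bounded
uniformly, which contradicts that `T_1` has a spectral value of modulus `e^{ω₀}`.
-/

set_option autoImplicit false

namespace Pool.Agent.Results.MP_e5770a_an.SpectralBound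

open Filter Topology Pool.Agent.Helper730_SG

section

variable {H E : Type*} [NormedAddCommGroup H] [InnerProductSpace ℝ H]
  [NormedAddCommGroup E] [InnerProductSpace ℂ E] {ι : H → E}

theorem norm_map (hι : IsComplexification H E ι) (x : H) : ‖ι x‖ = ‖x‖ := by
  have h2 : ‖ι x‖ ^ 2 = ‖x‖ ^ 2 := by
    rw [@norm_sq_eq_re_inner ℂ, hι.inner_map, real_inner_self_eq_norm_sq]
    exact Complex.ofReal_re _
  exact (pow_left_inj₀ (norm_nonneg _) (norm_nonneg _) two_ne_zero).1 h2

theorem map_sub' (hι : IsComplexification H E ι) (x y : H) : ι (x - y) = ι x - ι y := by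
  have h1 : x - y = x + (-1 : ℝ) • y := by rw [neg_one_smul, sub_eq_add_neg]
  rw [h1, hι.map_add, hι.map_smul]
  push_cast
  rw [neg_one_smul, sub_eq_add_neg]

theorem isometry_map (hι : IsComplexification H E ι) : Isometry ι := by
  apply Isometry.of_dist_eq
  intro x y
  rw [dist_eq_norm, dist_eq_norm, ← map_sub' hι, norm_map hι]

end

/-- **Main theorem.** For a strongly continuous group `(T t)` of positive operators on the
complexification `E` of a real Hilbert space `H` with a closed, normal, generating cone `K`, the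
growth bound `ω₀ = lim t⁻¹ log ‖T t‖` exists and equals the spectral bound
`s(A) = sup {Re z : z ∈ σ(A)}` of the generator `A`; moreover `ω₀ ∈ σ(A)`. -/
theorem result {H E : Type*} [NormedAddCommGroup H] [InnerProductSpace ℝ H] [CompleteSpace H]
    [Nontrivial H] [NormedAddCommGroup E] [InnerProductSpace ℂ E] [CompleteSpace E]
    (ι : H → E) (hι : IsComplexification H E ι) (K : Set H) (hK : IsOrderCone K)
    (T : ℝ → E →L[ℂ] E) (hT : IsC0Group T)
    (hpos : ∀ t : ℝ, ∀ x ∈ K, ∃ y ∈ K, T t (ι x) = ι y) :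
    ∃ ω₀ : ℝ, Tendsto (fun t : ℝ => Real.log ‖T t‖ / t) atTop (𝓝 ω₀) ∧
      IsLUB (Complex.re '' genSpectrum T) ω₀ ∧ (ω₀ : ℂ) ∈ genSpectrum T := by
  obtain ⟨c, hc, hnorm⟩ := hK.normal
  have hiso := isometry_map hι
  have : Nontrivial E := hiso.injective.nontrivial
  have hP : IsCone (ι '' K) c :=
    { zero_mem := ⟨0, hK.zero_mem, by
        have := map_sub' hι 0 0
        rw [sub_self, sub_self] at this
        exact this⟩
      add_mem := by
        rintro _ ⟨x, hx, rfl⟩ _ ⟨y, hy, rfl⟩
        exact ⟨x + y, hK.add_mem x hx y hy, hι.map_add x y⟩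
      smul_mem := by
        rintro r hr _ ⟨x, hx, rfl⟩
        exact ⟨r • x, hK.smul_mem r hr x hx, by rw [hι.map_smul, Complex.coe_smul]⟩
      closed := hiso.isClosedEmbedding.isClosedMap _ hK.closed
      normal := by
        rintro _ y ⟨a, ha, rfl⟩ ⟨b, hb, hb2⟩
        have hy : y = ι (a + b) := by rw [hι.map_add, hb2]; abel
        rw [hy, norm_map hι, norm_map hι]
        exact hnorm a (a + b) ha (by rw [add_sub_cancel_left]; exact hb) }
  have hpos' : ∀ t, ∀ x ∈ ι '' K, T t x ∈ ι '' K := by
    rintro t _ ⟨x, hx, rfl⟩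
    obtain ⟨y, hy, hy2⟩ := hpos t x hx
    exact ⟨y, hy, hy2.symm⟩
  have hgen : ∀ x : E, ∃ p ∈ ι '' K, ∃ q ∈ ι '' K, ∃ r ∈ ι '' K, ∃ s ∈ ι '' K,
      x = (p - q) + Complex.I • (r - s) := by
    intro z
    obtain ⟨x, y, rfl⟩ := hι.exists_re_im z
    obtain ⟨a, ha, b, hb, rfl⟩ := hK.generating x
    obtain ⟨a', ha', b', hb', rfl⟩ := hK.generating y
    exact ⟨_, ⟨a, ha, rfl⟩, _, ⟨b, hb, rfl⟩, _, ⟨a', ha', rfl⟩, _, ⟨b', hb', rfl⟩, by
      rw [map_sub' hι, map_sub' hι]⟩
  obtain ⟨l, hls, hl0, hl⟩ := exists_peripheral hT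
  have hmem := mem_genSpectrum hT hP hc hpos' hgen hls hl0 hl
  refine ⟨Real.log ‖l‖, log_tendsto hT hl0 hl, ⟨?_, ?_⟩, hmem⟩
  · rintro _ ⟨z, hz, rfl⟩
    by_contra hlt
    rw [not_le] at hlt
    exact hz ⟨_, RR_spec hT (summable_neumann hT hl0 hl hlt)⟩
  · intro b hb
    have := hb ⟨_, hmem, rfl⟩
    simpa using this

end Pool.Agent.Results.MP_e5770a_an.SpectralBound
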